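import Pool.Agent.Q161.ESF.Stm7
import Pool.Agent.TH841.SH.Loc
import Mathlib.LinearAlgebra.Lagrange

/-!
# Project ESF (helper161), job KLF: local solubility, with a point which is not of order dividing 4

Adapted from `Pool/Agent/Q68/EA/{Emb, KL}.lean` and `Pool/Agent/Q26/EA/Emb.lean`.
-/

set_option autoImplicit false

namespace Pool.Agent.Q129.ESF

open WeierstrassCurve Polynomial NumberField

open scoped Classical

open Pool.Agent.Q161.EA (sg)
open Pool.Agent.Q161.ESG (shF)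
open Pool.Agent.Q161.ESF
open Pool.Agent.TH841.SH (IsR IsX gf isX_some not_isX fix_mem)

section emb

variable {F : Type} [Field F] [CharZero F] {A B : F} {L : Type} [Field L] [Algebra F L] {ϑ : L}

theorem fin_of (hC : CubF A B L ϑ) : FiniteDimensional F L :=
  FiniteDimensional.of_finrank_pos (by rw [hC.deg]; norm_num)

theorem act_some (W : WeierstrassCurve F) {M N : Type} [Field M] [Field N] [Algebra F M]
    [Algebra F N] (φ : M →ₐ[F] N) {x y : M} (h : (W.baseChange M).toAffine.Nonsingular x y) :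
    act W φ (.some x y h) =
      .some (φ x) (φ y) ((Affine.baseChange_nonsingular W φ.injective ..).mpr h) := rfl

theorem act_inj (W : WeierstrassCurve F) {M N : Type} [Field M] [Field N] [Algebra F M]
    [Algebra F N] (φ : M →ₐ[F] N) : Function.Injective (act W φ) :=
  Affine.Point.map_injective φ

theorem act_act (W : WeierstrassCurve F) {M N R : Type} [Field M] [Field N] [Field R] [Algebra F M]
    [Algebra F N] [Algebra F R] (φ : M →ₐ[F] N) (ψ : N →ₐ[F] R) (P : Pt W M) :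
    act W ψ (act W φ P) = act W (ψ.comp φ) P :=
  Affine.Point.map_map φ ψ P

theorem emb_inj (hC : CubF A B L ϑ) (Ω : Type) [Field Ω] [Algebra F Ω] {e e' : L →ₐ[F] Ω}
    (h : e ϑ = e' ϑ) : e = e' := by
  have := fin_of hC
  have hmon : (X ^ 3 + C A * X + C B : F[X]).Monic := by monicity!
  have hdeg : (X ^ 3 + C A * X + C B : F[X]).natDegree = 3 := by compute_degree!
  have hmin : (X ^ 3 + C A * X + C B : F[X]) = minpoly F ϑ := by
    refine minpoly.eq_of_irreducible_of_monic hC.irr ?_ hmon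
    simpa using hC.root
  have htop : IntermediateField.adjoin F {ϑ} = ⊤ := by
    rw [Field.primitive_element_iff_minpoly_natDegree_eq, ← hmin, hdeg, hC.deg]
  have halg : Algebra.adjoin F {ϑ} = ⊤ := by
    rw [← IntermediateField.adjoin_simple_toSubalgebra_of_isAlgebraic
      (Algebra.IsAlgebraic.isAlgebraic ϑ), htop, IntermediateField.top_toSubalgebra]
  refine AlgHom.ext_of_adjoin_eq_top halg ?_
  intro x hx
  rw [Set.mem_singleton_iff] at hx
  rw [hx, h]

theorem emb_root (hC : CubF A B L ϑ) (Ω : Type) [Field Ω] [Algebra F Ω] (e : L →ₐ[F] Ω) :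
    (e ϑ) ^ 3 + algebraMap F Ω A * e ϑ + algebraMap F Ω B = 0 := by
  have h := congrArg e hC.root
  rw [map_add, map_add, map_pow, map_mul, e.commutes, e.commutes, map_zero] at h
  exact h

theorem embs (hC : CubF A B L ϑ) (Ω : Type) [Field Ω] [Algebra F Ω] [IsAlgClosed Ω]
    (e : L →ₐ[F] Ω) : ∃ e' e'' : L →ₐ[F] Ω, e ≠ e' ∧ e ≠ e'' ∧ e' ≠ e'' ∧
      ∀ x, x = e ∨ x = e' ∨ x = e'' := by
  have := fin_of hC
  have hcard : Fintype.card (L →ₐ[F] Ω) = 3 := by
    rw [AlgHom.card F L Ω, hC.deg]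
  have h1 : (Finset.univ.erase e : Finset (L →ₐ[F] Ω)).card = 2 := by
    rw [Finset.card_erase_of_mem (Finset.mem_univ _), Finset.card_univ, hcard]
  obtain ⟨e', e'', hne, heq⟩ := Finset.card_eq_two.1 h1
  have h2 : e' ∈ Finset.univ.erase e := by
    rw [heq]
    simp
  have h3 : e'' ∈ Finset.univ.erase e := by
    rw [heq]
    simp
  refine ⟨e', e'', (Finset.ne_of_mem_erase h2).symm, (Finset.ne_of_mem_erase h3).symm, hne, ?_⟩
  intro x
  by_cases hx : x = e
  · exact Or.inl hx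
  · right
    have h4 : x ∈ Finset.univ.erase e := Finset.mem_erase.2 ⟨hx, Finset.mem_univ _⟩
    rw [heq] at h4
    simpa using h4

theorem isR_of {Ω : Type} [Field Ω] [Algebra F Ω] {a b c : Ω}
    (ha : a ^ 3 + algebraMap F Ω A * a + algebraMap F Ω B = 0)
    (hb : b ^ 3 + algebraMap F Ω A * b + algebraMap F Ω B = 0)
    (hc : c ^ 3 + algebraMap F Ω A * c + algebraMap F Ω B = 0)
    (hab : a ≠ b) (hac : a ≠ c) (hbc : b ≠ c) : IsR ((shF A B).baseChange Ω) a b c := by
  have h1 : a ^ 2 + a * b + b ^ 2 + algebraMap F Ω A = 0 := by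
    apply mul_left_cancel₀ (sub_ne_zero.2 hab)
    linear_combination ha - hb
  have h2 : a ^ 2 + a * c + c ^ 2 + algebraMap F Ω A = 0 := by
    apply mul_left_cancel₀ (sub_ne_zero.2 hac)
    linear_combination ha - hc
  have h3 : a + b + c = 0 := by
    apply mul_left_cancel₀ (sub_ne_zero.2 hbc)
    linear_combination h1 - h2
  refine ⟨?_, ?_, ?_, ?_, ?_⟩
  · show algebraMap F Ω 0 = 0
    exact map_zero _
  · show algebraMap F Ω 0 = _
    rw [map_zero, h3, neg_zero]
  · show algebraMap F Ω 0 = 0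
    exact map_zero _
  · show algebraMap F Ω A = _
    linear_combination h1 - (a + b) * h3
  · show algebraMap F Ω B = _
    linear_combination ha - a * h1 + a * b * h3

theorem emb_isR (hC : CubF A B L ϑ) (Ω : Type) [Field Ω] [Algebra F Ω] {e e' e'' : L →ₐ[F] Ω}
    (h1 : e ≠ e') (h2 : e ≠ e'') (h3 : e' ≠ e'') :
    IsR ((shF A B).baseChange Ω) (e ϑ) (e' ϑ) (e'' ϑ) :=
  isR_of (emb_root hC Ω e) (emb_root hC Ω e') (emb_root hC Ω e'')
    (fun h => h1 (emb_inj hC Ω h)) (fun h => h2 (emb_inj hC Ω h)) (fun h => h3 (emb_inj hC Ω h))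

theorem sg_or {K : Type} [Field K] (W : WeierstrassCurve K) (e : K) (T : W.toAffine.Point) :
    sg W e T = 1 ∨ sg W e T = -1 := by
  unfold sg
  split_ifs
  · exact Or.inl rfl
  · exact Or.inr rfl

theorem act_isX' (W : WeierstrassCurve F) {M N : Type} [Field M] [Field N] [Algebra F M]
    [Algebra F N] (φ : M →ₐ[F] N) (e : M) (T : Pt W M) :
    IsX (W.baseChange N) (φ e) (act W φ T) ↔ IsX (W.baseChange M) e T := by
  rcases T with _ | ⟨x, y, h⟩
  · exact ⟨fun _ => Or.inl rfl, fun _ => Or.inl rfl⟩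
  · by_cases hx : x = e
    · subst hx
      refine ⟨fun _ => isX_some h, fun _ => ?_⟩
      rw [act_some]
      exact isX_some _
    · refine ⟨fun h' => absurd h' ?_, fun h' => absurd h' (not_isX h hx)⟩
      rw [act_some]
      apply not_isX
      intro h2
      exact hx (φ.injective h2)

theorem sg_act (W : WeierstrassCurve F) {M N : Type} [Field M] [Field N] [Algebra F M]
    [Algebra F N] (φ : M →ₐ[F] N) (e : M) (T : Pt W M) :
    sg (W.baseChange N) (φ e) (act W φ T) = φ (sg (W.baseChange M) e T) := by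
  unfold sg
  by_cases h : IsX (W.baseChange M) e T
  · rw [if_pos h, if_pos ((act_isX' W φ e T).2 h), map_one]
  · rw [if_neg h, if_neg (fun h' => h ((act_isX' W φ e T).1 h')), map_neg, map_one]

/-- the embeddings into a larger field -/
theorem emb_lift (hC : CubF A B L ϑ) (Ω : Type) [Field Ω] [Algebra F Ω] [IsAlgClosed Ω]
    (ι : AlgebraicClosure F →ₐ[F] Ω) (e : L →ₐ[F] Ω) : ∃ e' : L →ₐ[F] AlgebraicClosure F, ι.comp e' = e := by
  have := fin_of hC
  have hinj : Function.Injective (fun e' : L →ₐ[F] AlgebraicClosure F => ι.comp e') := by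
    intro a b hab
    ext x
    have := DFunLike.congr_fun hab x
    exact ι.injective this
  have hcard : Fintype.card (L →ₐ[F] AlgebraicClosure F) = Fintype.card (L →ₐ[F] Ω) := by
    rw [AlgHom.card F L Ω, AlgHom.card F L (AlgebraicClosure F)]
  have hbij := (Fintype.bijective_iff_injective_and_card _).2 ⟨hinj, hcard⟩
  exact hbij.2 e

/-- the square root of `x (2 P) - a`, in another form -/
noncomputable def gg (A : F) {Ω : Type} [Field Ω] [Algebra F Ω] (a : Ω) {W : WeierstrassCurve Ω} :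
    W.toAffine.Point → Ω
  | 0 => 0
  | .some u v _ => ((u - a) ^ 2 - (3 * a ^ 2 + algebraMap F Ω A)) / (2 * v)

theorem gg_gf {Ω : Type} [Field Ω] [Algebra F Ω] {a b c : Ω}
    (h : IsR ((shF A B).baseChange Ω) a b c) (P : Pt (shF A B) Ω) :
    gg A a P = gf ((shF A B).baseChange Ω) a b c P := by
  have h1 : (a - b) * (a - c) = 3 * a ^ 2 + algebraMap F Ω A := by
    have e1 : algebraMap F Ω A = a * b + a * c + b * c := h.h4
    have e2 : algebraMap F Ω 0 = -(a + b + c) := h.h2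
    rw [map_zero] at e2
    rw [e1]
    linear_combination (-(2 * a)) * e2
  rcases P with _ | ⟨u, v, hn⟩
  · rfl
  · show ((u - a) ^ 2 - (3 * a ^ 2 + algebraMap F Ω A)) / (2 * v) =
      ((u - a) ^ 2 - (a - b) * (a - c)) / (2 * v)
    rw [h1]

theorem act_gg {Ω : Type} [Field Ω] [Algebra F Ω] (φ : Ω →ₐ[F] Ω) (a : Ω) (P : Pt (shF A B) Ω) :
    φ (gg A a P) = gg A (φ a) (act (shF A B) φ P) := by
  rcases P with _ | ⟨u, v, h⟩
  · exact map_zero φ
  · rw [act_some]
    show φ (((u - a) ^ 2 - (3 * a ^ 2 + algebraMap F Ω A)) / (2 * v)) =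
      ((φ u - φ a) ^ 2 - (3 * (φ a) ^ 2 + algebraMap F Ω A)) / (2 * φ v)
    simp only [map_div₀, map_sub, map_pow, map_mul, map_ofNat, map_add, AlgHom.commutes]

end emb

section

variable {F : Type} [Field F] [CharZero F] {A B : F} {L : Type} [Field L] [Algebra F L] {ϑ : L}
variable {K Ω : Type} [Field K] [Field Ω] [Algebra F K] [Algebra K Ω] [Algebra F Ω]
  [IsScalarTower F K Ω]

/-- restriction of automorphisms -/
theorem exists_restr (ι : AlgebraicClosure F →ₐ[F] Ω) (τ : Ω ≃ₐ[K] Ω) :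
    ∃ σ : GF F, (τ.toAlgHom.restrictScalars F).comp ι = ι.comp σ.toAlgHom := by
  let _ : Algebra (AlgebraicClosure F) Ω := ι.toRingHom.toAlgebra
  have : IsScalarTower F (AlgebraicClosure F) Ω :=
    IsScalarTower.of_algebraMap_eq (fun x => (ι.commutes x).symm)
  let τ' : Ω ≃ₐ[F] Ω := τ.restrictScalars F
  refine ⟨τ'.restrictNormal (AlgebraicClosure F), ?_⟩
  ext x
  exact (AlgEquiv.restrictNormal_commutes τ' (AlgebraicClosure F) x).symm

variable [IsAlgClosed Ω] [IsGalois K Ω]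

theorem itp (h : CubF A B L ϑ) (hh : (L →ₐ[F] Ω) → Ω)
    (hinv : ∀ (τ : Ω ≃ₐ[K] Ω) (e : L →ₐ[F] Ω),
      τ (hh ((τ.symm.toAlgHom.restrictScalars F).comp e)) = hh e) :
    ∃ g : K[X], ∀ e : L →ₐ[F] Ω, aeval (e ϑ) g = hh e := by
  have := fin_of h
  have hi : Function.Injective (fun e : L →ₐ[F] Ω => e ϑ) := fun _ _ hab => emb_inj h Ω hab
  have hi' : Set.InjOn (fun e : L →ₐ[F] Ω => e ϑ) (Finset.univ : Finset (L →ₐ[F] Ω)) := hi.injOn
  obtain ⟨p, hp⟩ : ∃ p, p = Lagrange.interpolate Finset.univ (fun e : L →ₐ[F] Ω => e ϑ) hh := ⟨_, rfl⟩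
  have hev : ∀ e : L →ₐ[F] Ω, p.eval (e ϑ) = hh e := fun e => by
    rw [hp]
    exact Lagrange.eval_interpolate_at_node hh hi' (Finset.mem_univ e)
  have hdeg : p.degree < (Finset.univ : Finset (L →ₐ[F] Ω)).card := by
    rw [hp]
    exact Lagrange.degree_interpolate_lt hh hi'
  have hfix : ∀ τ : Ω ≃ₐ[K] Ω, p.map (τ : Ω →+* Ω) = p := by
    intro τ
    have h1 : p.map (τ : Ω →+* Ω) = Lagrange.interpolate Finset.univ (fun e : L →ₐ[F] Ω => e ϑ) hh := by
      refine Lagrange.eq_interpolate_of_eval_eq hh hi' (lt_of_le_of_lt degree_map_le hdeg) ?_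
      intro e _
      have h2 := hinv τ e
      rw [← hev] at h2
      rw [← h2]
      have h3 : e ϑ = (τ : Ω →+* Ω) (τ.symm (e ϑ)) := (τ.apply_symm_apply _).symm
      show eval (e ϑ) (p.map (τ : Ω →+* Ω)) = (τ : Ω →+* Ω) (p.eval (τ.symm (e ϑ)))
      conv_lhs => rw [h3]
      rw [eval_map_apply]
    rw [h1, ← hp]
  have hl : p ∈ lifts (algebraMap K Ω) := by
    rw [lifts_iff_coeff_lifts]
    intro n
    have h1 : ∀ τ : Ω ≃ₐ[K] Ω, τ (p.coeff n) = p.coeff n := by
      intro τ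
      have h2 := congrArg (fun r => r.coeff n) (hfix τ)
      simpa [coeff_map] using h2
    obtain ⟨y, hy⟩ := fix_mem (p.coeff n) h1
    exact ⟨y, hy⟩
  rw [mem_lifts] at hl
  obtain ⟨g, hg⟩ := hl
  refine ⟨g, fun e => ?_⟩
  rw [← hev e, ← hg, eval_map, aeval_def]

/-- divisibility by the cubic -/
theorem dvd_of (hC : CubF A B L ϑ) (Q : K[X])
    (hQ : ∀ e : L →ₐ[F] Ω, aeval (e ϑ) Q = 0) :
    (X ^ 3 + C A * X + C B : F[X]).map (algebraMap F K) ∣ Q := by
  have := fin_of hC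
  obtain ⟨e⟩ : Nonempty (L →ₐ[F] Ω) := ⟨IsAlgClosed.lift⟩
  obtain ⟨e', e'', h1, h2, h3, -⟩ := embs hC Ω e
  have n1 : e ϑ ≠ e' ϑ := fun h => h1 (emb_inj hC Ω h)
  have n2 : e ϑ ≠ e'' ϑ := fun h => h2 (emb_inj hC Ω h)
  have n3 : e' ϑ ≠ e'' ϑ := fun h => h3 (emb_inj hC Ω h)
  have hR := emb_isR hC Ω h1 h2 h3
  rw [← Polynomial.map_dvd_map' (algebraMap K Ω), Polynomial.map_map]
  have hcomp : (algebraMap K Ω).comp (algebraMap F K) = algebraMap F Ω :=
    (IsScalarTower.algebraMap_eq F K Ω).symm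
  rw [hcomp]
  have e1 : algebraMap F Ω A = e ϑ * e' ϑ + e ϑ * e'' ϑ + e' ϑ * e'' ϑ := hR.h4
  have e2 : algebraMap F Ω 0 = -(e ϑ + e' ϑ + e'' ϑ) := hR.h2
  have e3 : algebraMap F Ω B = -(e ϑ * e' ϑ * e'' ϑ) := hR.h6
  rw [map_zero] at e2
  have hfac : (X ^ 3 + C A * X + C B : F[X]).map (algebraMap F Ω) =
      (X - C (e ϑ)) * (X - C (e' ϑ)) * (X - C (e'' ϑ)) := by
    simp only [Polynomial.map_add, Polynomial.map_mul, Polynomial.map_pow, Polynomial.map_X,
      Polynomial.map_C]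
    rw [e1, e3]
    have h5 : C (e ϑ + e' ϑ + e'' ϑ) = (0 : Polynomial Ω) := by
      rw [← neg_neg (e ϑ + e' ϑ + e'' ϑ), ← e2, neg_zero, C_0]
    simp only [C_add, C_mul, C_neg] at h5 ⊢
    linear_combination (X ^ 2) * h5
  rw [hfac]
  have hroot : ∀ x : L →ₐ[F] Ω, (X - C (x ϑ)) ∣ Q.map (algebraMap K Ω) := by
    intro x
    rw [Polynomial.dvd_iff_isRoot, Polynomial.IsRoot.def, Polynomial.eval_map_algebraMap]
    exact hQ x
  have cop : ∀ {a b : Ω}, a ≠ b → IsCoprime (X - C a) (X - C b) := fun h =>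
    Polynomial.isCoprime_X_sub_C_of_isUnit_sub (IsUnit.mk0 _ (sub_ne_zero.2 h))
  exact (IsCoprime.mul_left (cop n2) (cop n3)).mul_dvd
    ((cop n1).mul_dvd (hroot e) (hroot e')) (hroot e'')

/-- the descent step -/
theorem kl_step (hC : CubF A B L ϑ) (f : GF F → Pt (shF A B) (AlgebraicClosure F))
    (γ : (L →ₐ[F] AlgebraicClosure F) → AlgebraicClosure F) (δ : L) (hK : KDF (shF A B) ϑ f γ δ)
    (ι : AlgebraicClosure F →ₐ[F] Ω)
    (G : (L →ₐ[F] Ω) → Ω)
    (hG : ∀ (τ : Ω ≃ₐ[K] Ω) (σ : GF F),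
      (τ.toAlgHom.restrictScalars F).comp ι = ι.comp σ.toAlgHom → ∀ e : L →ₐ[F] Ω,
      τ (G ((τ.symm.toAlgHom.restrictScalars F).comp e)) =
        sg ((shF A B).baseChange Ω) (e ϑ) (act (shF A B) ι (f σ)) * G e)
    (d : F[X]) (hd : aeval ϑ d = δ) (x : K)
    (hxw : ∀ e : L →ₐ[F] Ω, algebraMap K Ω x - e ϑ = G e ^ 2) :
    ∃ g : K[X], (X ^ 3 + C A * X + C B : F[X]).map (algebraMap F K) ∣
      C x - X - d.map (algebraMap F K) * g ^ 2 := by
  choose r hr using emb_lift hC Ω ι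
  have hrv : ∀ (e : L →ₐ[F] Ω) (z : L), ι (r e z) = e z := fun e z =>
    DFunLike.congr_fun (hr e) z
  have hγ0 : ∀ e, ι (γ (r e)) ≠ 0 := fun e h => hK.ne (r e) ((map_eq_zero ι).1 h)
  obtain ⟨g, hg⟩ := itp (K := K) hC (fun e => G e / ι (γ (r e))) (by
    intro τ e
    obtain ⟨σ, hσ⟩ := exists_restr ι τ
    have hcomm : ∀ z : AlgebraicClosure F, τ (ι z) = ι (σ z) := fun z => DFunLike.congr_fun hσ z
    have h1 : r ((τ.symm.toAlgHom.restrictScalars F).comp e) = σ.symm.toAlgHom.comp (r e) := by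
      ext z
      apply ι.injective
      show ι (r ((τ.symm.toAlgHom.restrictScalars F).comp e) z) = ι (σ.symm (r e z))
      rw [hrv]
      show τ.symm (e z) = ι (σ.symm (r e z))
      apply τ.injective
      rw [τ.apply_symm_apply, hcomm, σ.apply_symm_apply, hrv]
    show τ (G ((τ.symm.toAlgHom.restrictScalars F).comp e) /
      ι (γ (r ((τ.symm.toAlgHom.restrictScalars F).comp e)))) = G e / ι (γ (r e))
    rw [h1, map_div₀, hcomm, hG τ σ hσ, hK.gal, map_mul]
    have h2 : sg ((shF A B).baseChange Ω) (e ϑ) (act (shF A B) ι (f σ)) =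
        ι (sg ((shF A B).baseChange (AlgebraicClosure F)) (r e ϑ) (f σ)) := by
      rw [← sg_act, hrv]
    rw [h2]
    have h3 : ι (sg ((shF A B).baseChange (AlgebraicClosure F)) (r e ϑ) (f σ)) ≠ 0 := by
      rcases sg_or ((shF A B).baseChange (AlgebraicClosure F)) (r e ϑ) (f σ) with h | h
      · rw [h, map_one]
        exact one_ne_zero
      · rw [h, map_neg, map_one]
        exact neg_ne_zero.2 one_ne_zero
    exact mul_div_mul_left _ _ h3)
  refine ⟨g, dvd_of (Ω := Ω) hC _ (fun e => ?_)⟩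
  have hcomp : (algebraMap K Ω).comp (algebraMap F K) = algebraMap F Ω :=
    (IsScalarTower.algebraMap_eq F K Ω).symm
  have h4 : aeval (e ϑ) (d.map (algebraMap F K)) = e δ := by
    rw [aeval_def, eval₂_map, hcomp, ← aeval_def, ← hd]
    exact (Polynomial.aeval_algHom_apply e ϑ d)
  have h5 : e δ = ι (γ (r e)) ^ 2 := by
    rw [← map_pow, hK.sq, hrv]
  rw [map_sub, map_sub, map_mul, map_pow, aeval_C, aeval_X, hg, h4, h5, hxw]
  have := hγ0 e
  field_simp
  ring

end

theorem klf : S_KLF := by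
  intro F _ _ A B L _ _ ϑ hC f γ δ hf hK K _ _ hloc hS d hd
  have hcK : CharZero K := charZero_of_injective_algebraMap (algebraMap F K).injective
  set Ω := AlgebraicClosure K with hΩ
  have hcz : CharZero Ω := charZero_of_injective_algebraMap (algebraMap K Ω).injective
  have hgal : IsGalois K Ω := Pool.Agent.TH841.SH.isGalAC K
  have h2 : (2 : Ω) ≠ 0 := two_ne_zero
  let ι : AlgebraicClosure F →ₐ[F] Ω := IsAlgClosed.lift
  obtain ⟨P0, hP0⟩ := hloc ι
  have hTT : ∀ σ, act (shF A B) ι (f σ) + act (shF A B) ι (f σ) = 0 := by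
    intro σ
    rw [← map_add, hf, map_zero]
  -- a point `P` with `4 P ≠ 0`
  obtain ⟨P, hτP, h4P⟩ : ∃ P : Pt (shF A B) Ω, (∀ (τ : Ω ≃ₐ[K] Ω) (σ : GF F),
      (τ.toAlgHom.restrictScalars F).comp ι = ι.comp σ.toAlgHom →
      act (shF A B) (τ.toAlgHom.restrictScalars F) P = P + act (shF A B) ι (f σ)) ∧
      P + P + (P + P) ≠ 0 := by
    have hτ0 : ∀ (τ : Ω ≃ₐ[K] Ω) (σ : GF F),
        (τ.toAlgHom.restrictScalars F).comp ι = ι.comp σ.toAlgHom →
        act (shF A B) (τ.toAlgHom.restrictScalars F) P0 = P0 + act (shF A B) ι (f σ) := by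
      intro τ σ h
      rw [hP0 τ σ h]
      abel
    by_cases h4 : P0 + P0 + (P0 + P0) = 0
    · obtain ⟨S, hS⟩ := hS
      set φ : K →ₐ[F] Ω := IsScalarTower.toAlgHom F K Ω with hφ
      refine ⟨P0 + act (shF A B) φ S, ?_, ?_⟩
      · intro τ σ h
        have h5 : act (shF A B) (τ.toAlgHom.restrictScalars F) (act (shF A B) φ S) =
            act (shF A B) φ S := by
          have h6 : (τ.toAlgHom.restrictScalars F).comp φ = φ := by
            ext z
            exact τ.commutes z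
          rw [act_act, h6]
        rw [map_add, hτ0 τ σ h, h5]
        abel
      · intro h5
        apply hS
        apply act_inj (shF A B) φ
        rw [map_zero, map_add, map_add]
        have h6 : act (shF A B) φ S + act (shF A B) φ S + (act (shF A B) φ S + act (shF A B) φ S) =
            (P0 + act (shF A B) φ S + (P0 + act (shF A B) φ S) +
              (P0 + act (shF A B) φ S + (P0 + act (shF A B) φ S))) - (P0 + P0 + (P0 + P0)) := by
          abel
        rw [h6, h5, h4, sub_zero]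
    · exact ⟨P0, hτ0, h4⟩
  have hPP : P + P ≠ 0 := by
    intro h
    rw [h, add_zero] at h4P
    exact h4P rfl
  rcases P with _ | ⟨u, v, hn⟩
  · exact absurd (add_zero _) hPP
  have hv : v ≠ 0 := by
    intro hv
    obtain ⟨e⟩ : Nonempty (L →ₐ[F] Ω) := by
      have := fin_of hC
      exact ⟨IsAlgClosed.lift⟩
    obtain ⟨e', e'', q1, q2, q3, -⟩ := embs hC _ e
    exact hPP (((emb_isR hC _ q1 q2 q3).add_self h2 hn).2 hv)
  have hτe : ∀ (τ : Ω ≃ₐ[K] Ω)
      (e : L →ₐ[F] Ω) (z : L),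
      (τ.toAlgHom.restrictScalars F) (((τ.symm.toAlgHom.restrictScalars F).comp e) z) = e z := by
    intro τ e z
    exact τ.apply_symm_apply _
  -- the double
  obtain ⟨X0, Y0, hn0, hdbl⟩ : ∃ (X0 Y0 : Ω)
      (hn0 : ((shF A B).baseChange (Ω)).toAffine.Nonsingular X0 Y0),
      (Affine.Point.some u v hn : Pt (shF A B) (Ω)) + .some u v hn =
        .some X0 Y0 hn0 := by
    obtain ⟨e⟩ : Nonempty (L →ₐ[F] Ω) := by
      have := fin_of hC
      exact ⟨IsAlgClosed.lift⟩
    obtain ⟨e', e'', q1, q2, q3, -⟩ := embs hC _ e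
    obtain ⟨X0, Y0, hn0, h5, -⟩ := (emb_isR hC _ q1 q2 q3).dup h2 hn hv
    exact ⟨X0, Y0, hn0, h5⟩
  have hY0 : Y0 ≠ 0 := by
    intro hy
    obtain ⟨e⟩ : Nonempty (L →ₐ[F] Ω) := by
      have := fin_of hC
      exact ⟨IsAlgClosed.lift⟩
    obtain ⟨e', e'', q1, q2, q3, -⟩ := embs hC _ e
    rw [hdbl] at h4P
    exact h4P (((emb_isR hC _ q1 q2 q3).add_self h2 hn0).2 hy)
  have hXg : ∀ e : L →ₐ[F] Ω, X0 - e ϑ = gg A (e ϑ)
      (Affine.Point.some u v hn : Pt (shF A B) (Ω)) ^ 2 := by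
    intro e
    obtain ⟨e', e'', q1, q2, q3, -⟩ := embs hC _ e
    have hR := emb_isR hC _ q1 q2 q3
    obtain ⟨X1, Y1, hn1, h5, h6⟩ := hR.dup h2 hn hv
    rw [hdbl, Affine.Point.some.injEq] at h5
    rw [gg_gf hR, h5.1]
    exact h6
  have hfix : ∀ τ : Ω ≃ₐ[K] Ω, τ X0 = X0 ∧ τ Y0 = Y0 := by
    intro τ
    obtain ⟨σ, hσ⟩ := exists_restr ι τ
    have h6 : act (shF A B) (τ.toAlgHom.restrictScalars F) (.some X0 Y0 hn0) =
        .some X0 Y0 hn0 := by
      rw [← hdbl, map_add, hτP τ σ hσ]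
      have h8 : ∀ S T : Pt (shF A B) (Ω),
        (S + T) + (S + T) = (S + S) + (T + T) := fun S T => by abel
      rw [h8, hTT, add_zero]
    rw [act_some, Affine.Point.some.injEq] at h6
    exact h6
  obtain ⟨x, hx⟩ := fix_mem (K := K) X0 (fun τ => (hfix τ).1)
  obtain ⟨y, hy⟩ := fix_mem (K := K) Y0 (fun τ => (hfix τ).2)
  obtain ⟨g, hg⟩ := kl_step (K := K) hC f γ δ hK ι
    (fun e => gg A (e ϑ) (Affine.Point.some u v hn : Pt (shF A B) (Ω))) (by
      intro τ σ hσ e
      have h1 := act_gg (A := A) (B := B) (τ.toAlgHom.restrictScalars F)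
        (((τ.symm.toAlgHom.restrictScalars F).comp e) ϑ) (.some u v hn)
      rw [hτe, hτP τ σ hσ] at h1
      show (τ.toAlgHom.restrictScalars F) (gg A (((τ.symm.toAlgHom.restrictScalars F).comp e) ϑ)
        (Affine.Point.some u v hn : Pt (shF A B) (Ω))) = _
      rw [h1]
      obtain ⟨e', e'', q1, q2, q3, -⟩ := embs hC _ e
      have hR := emb_isR hC _ q1 q2 q3
      obtain ⟨u', v', hn', w1, w2, w3, w4⟩ := hR.sign h2 (fun h => q1 (emb_inj hC _ h))
        (fun h => q2 (emb_inj hC _ h)) (fun h => q3 (emb_inj hC _ h)) hn hv (hTT σ)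
      rw [gg_gf hR, gg_gf hR, w1]
      unfold sg
      by_cases hX : IsX ((shF A B).baseChange (Ω)) (e ϑ)
        (act (shF A B) ι (f σ))
      · rw [if_pos hX, one_mul, w3 hX]
      · rw [if_neg hX, w4 hX]
        ring) d hd x (by
      intro e
      rw [hx]
      exact hXg e)
  refine ⟨x, y, g, ?_, ?_, hg⟩
  · rintro rfl
    rw [map_zero] at hy
    exact hY0 hy.symm
  · apply (algebraMap K Ω).injective
    have heq := hn0.1
    rw [Affine.equation_iff] at heq
    have a1 : ((shF A B).baseChange Ω).a₁ = 0 := map_zero (algebraMap F Ω)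
    have a2 : ((shF A B).baseChange Ω).a₂ = 0 := map_zero (algebraMap F Ω)
    have a3 : ((shF A B).baseChange Ω).a₃ = 0 := map_zero (algebraMap F Ω)
    have a4 : ((shF A B).baseChange Ω).a₄ = algebraMap F Ω A := rfl
    have a6 : ((shF A B).baseChange Ω).a₆ = algebraMap F Ω B := rfl
    rw [a1, a2, a3, a4, a6] at heq
    rw [map_pow, map_add, map_add, map_pow, map_mul, hx, hy, ← IsScalarTower.algebraMap_apply F K Ω,
      ← IsScalarTower.algebraMap_apply F K Ω]
    linear_combination heq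

end Pool.Agent.Q129.ESF
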